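import Pool.Agent.TH434.NW.Near
import Pool.Agent.TH387.SH.Uni

/-! Two consecutive multiplicities: one window for each number of points, whose length tends to
zero. -/

namespace Pool.Agent.TH434.NW

open Finset Filter Pool.Agent.TH176.Nag Pool.Agent.TH603.Sur Pool.Agent.H932R3

/-- one sequence of good half lengths which tends to zero and satisfies an explicit bound -/
theorem exists_seq {G : ℕ → ℝ → Prop} (hmono : ∀ n x y, G n x → x ≤ y → G n y) {g : ℕ → ℝ} {c : ℝ}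
    (hc : 0 < c) (hg0 : ∀ n, 10 ≤ n → 0 ≤ g n) (hg : ∀ᶠ n : ℕ in atTop, c ≤ g n)
    (hgood : ∀ n, 10 ≤ n → G n (g n))
    (heps : ∀ ε : ℝ, 0 < ε → ∃ N0 : ℕ, ∀ n : ℕ, N0 ≤ n → G n ε) :
    ∃ ω : ℕ → ℝ, Tendsto ω atTop (nhds 0) ∧ ∀ n, 10 ≤ n → ω n ≤ g n ∧ G n (ω n) := by
  classical
  let S : ℕ → Set ℝ := fun n => {x | 0 ≤ x ∧ G n x}
  let a : ℕ → ℝ := fun n => sInf (S n) + 1 / (n + 1)
  have hbdd : ∀ n, BddBelow (S n) := fun n => ⟨0, fun x hx => hx.1⟩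
  have hinf0 : ∀ n, 0 ≤ sInf (S n) := fun n => Real.sInf_nonneg fun x hx => hx.1
  have ha : ∀ n, 10 ≤ n → G n (a n) := by
    intro n hn
    have hne : (S n).Nonempty := ⟨g n, hg0 n hn, hgood n hn⟩
    obtain ⟨x, hx, hxa⟩ := exists_lt_of_csInf_lt hne
      (show sInf (S n) < a n by
        have : (0 : ℝ) < 1 / (n + 1) := by positivity
        simp only [a]; linarith)
    exact hmono n x _ hx.2 hxa.le
  have hlim : Tendsto a atTop (nhds 0) := by
    have h1 : Tendsto (fun n => sInf (S n)) atTop (nhds 0) := by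
      rw [Metric.tendsto_atTop]
      intro ε hε
      obtain ⟨N0, h⟩ := heps (ε / 2) (half_pos hε)
      refine ⟨N0, fun n hn => ?_⟩
      have h2 : sInf (S n) ≤ ε / 2 := csInf_le (hbdd n) ⟨by linarith, h n hn⟩
      rw [Real.dist_eq, sub_zero, abs_of_nonneg (hinf0 n)]
      linarith
    have h2 : Tendsto (fun n : ℕ => 1 / ((n : ℝ) + 1)) atTop (nhds 0) :=
      tendsto_one_div_add_atTop_nhds_zero_nat
    have h3 := h1.add h2
    rw [add_zero] at h3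
    exact h3
  refine ⟨fun n => min (a n) (g n), ?_, ?_⟩
  · refine hlim.congr' ?_
    have h1 : ∀ᶠ n : ℕ in atTop, a n < c := hlim.eventually (gt_mem_nhds hc)
    filter_upwards [h1, hg] with n hn hn2
    exact (min_eq_left (hn.le.trans hn2)).symm
  · intro n hn
    refine ⟨min_le_right _ _, ?_⟩
    rcases min_choice (a n) (g n) with e | e
    · simp only [e]; exact ha n hn
    · simp only [e]; exact hgood n hn

/-- the expected dimension for every near-uniform vector of `n` multiplicities and every `d` with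
`x < f n (∑ w i) d` -/
def GoodN (L : Type) [Field L] [CharZero L] (f : ℕ → ℝ → ℕ → ℝ) (n : ℕ) (x : ℝ) : Prop :=
  ∀ m : ℕ, 1 ≤ m → ∀ w : Fin n → ℕ, (∀ i, w i = m ∨ w i = m + 1) →
    ∃ F : MvPolynomial (Fin n × Fin 2) ℚ, F ≠ 0 ∧
      ∀ P : Fin n → Fin 2 → L,
        MvPolynomial.aeval (fun ij : Fin n × Fin 2 => P ij.1 ij.2) F ≠ 0 →
        ∀ d : ℕ, x < f n (∑ i, (w i : ℝ)) d → ExpDim L w P d

theorem GoodN.mono {L : Type} [Field L] [CharZero L] {f : ℕ → ℝ → ℕ → ℝ} (n : ℕ) (x y : ℝ)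
    (h : GoodN L f n x) (hxy : x ≤ y) : GoodN L f n y := by
  intro m hm w hw
  obtain ⟨F, hF, hF'⟩ := h m hm w hw
  exact ⟨F, hF, fun P hP d hd => hF' P hP d (lt_of_le_of_lt hxy hd)⟩

/-- the distance of the degree from the critical value, from below -/
noncomputable def lo (n : ℕ) (W : ℝ) (d : ℕ) : ℝ := √(n : ℝ) + 2 * W / √(n : ℝ) - (2 * d + 3)

/-- the distance of the degree from the critical value, from above -/
noncomputable def up (n : ℕ) (W : ℝ) (d : ℕ) : ℝ := (2 * d + 3) - (√(n : ℝ) + 2 * W / √(n : ℝ))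

variable {L : Type} [Field L] [CharZero L]

theorem good_lo {n : ℕ} (hn : 10 ≤ n) :
    GoodN L lo n (min (√(n : ℝ) - 3) (2 / 3 + 9 / (4 * √(n : ℝ)))) := by
  intro m hm w hw
  obtain ⟨F, hF, hF'⟩ := near_win (L := L) hn hm hw
  exact ⟨F, hF, fun P hP d hd => hF' P hP d (Or.inl hd)⟩

theorem good_up {n : ℕ} (hn : 10 ≤ n) :
    GoodN L up n (min (√(n : ℝ) - 3) (2 / 3 + 1 / (4 * √(n : ℝ)))) := by
  intro m hm w hw
  obtain ⟨F, hF, hF'⟩ := near_win (L := L) hn hm hw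
  exact ⟨F, hF, fun P hP d hd => hF' P hP d (Or.inr hd)⟩

theorem eps_lo {ε : ℝ} (hε : 0 < ε) : ∃ N0 : ℕ, ∀ n : ℕ, N0 ≤ n → GoodN L lo n ε := by
  obtain ⟨N0, h⟩ := Pool.Agent.TH885.NW.all_near hε
  refine ⟨N0, fun n hn m hm w hw => ?_⟩
  obtain ⟨F, hF, hF'⟩ := h n hn m hm w hw (L := L)
  refine ⟨F, hF, fun P hP d hd => hF' P hP d ?_⟩
  unfold lo at hd
  refine le_trans ?_ (neg_le_abs _)
  linarith

theorem eps_up {ε : ℝ} (hε : 0 < ε) : ∃ N0 : ℕ, ∀ n : ℕ, N0 ≤ n → GoodN L up n ε := by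
  obtain ⟨N0, h⟩ := Pool.Agent.TH885.NW.all_near hε
  refine ⟨N0, fun n hn m hm w hw => ?_⟩
  obtain ⟨F, hF, hF'⟩ := h n hn m hm w hw (L := L)
  refine ⟨F, hF, fun P hP d hd => hF' P hP d ?_⟩
  unfold up at hd
  refine le_trans ?_ (le_abs_self _)
  linarith

/-- **Near-uniform SHGH at every number `n ≥ 10` of general points, outside one window** which
contains at most one degree and whose length tends to zero. -/
theorem exists_window_near (L : Type) [Field L] [CharZero L] : ∃ α β : ℕ → ℝ,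
    Tendsto α atTop (nhds 0) ∧ Tendsto β atTop (nhds 0) ∧
    (∀ n, 10 ≤ n → α n ≤ min (√(n : ℝ) - 3) (2 / 3 + 9 / (4 * √(n : ℝ))) ∧
      β n ≤ min (√(n : ℝ) - 3) (2 / 3 + 1 / (4 * √(n : ℝ))) ∧ α n + β n < 2) ∧
    ∀ n, 10 ≤ n → ∀ m : ℕ, 1 ≤ m → ∀ w : Fin n → ℕ, (∀ i, w i = m ∨ w i = m + 1) →
      ∃ F : MvPolynomial (Fin n × Fin 2) ℚ, F ≠ 0 ∧
      ∀ P : Fin n → Fin 2 → L,
        MvPolynomial.aeval (fun ij : Fin n × Fin 2 => P ij.1 ij.2) F ≠ 0 →
        ∀ d : ℕ, ((2 * (d : ℝ) + 3 < √(n : ℝ) + 2 * (∑ i, (w i : ℝ)) / √(n : ℝ) - α n) ∨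
          (√(n : ℝ) + 2 * (∑ i, (w i : ℝ)) / √(n : ℝ) + β n < 2 * (d : ℝ) + 3)) →
          ExpDim L w P d := by
  obtain ⟨α, hα, hα'⟩ := exists_seq (G := GoodN L lo) GoodN.mono (c := 1 / 2) (by norm_num)
    (fun n hn => Pool.Agent.TH387.SH.win_nonneg (a := 9) (by norm_num) hn)
    (Pool.Agent.TH387.SH.win_ev (by norm_num)) (fun n hn => good_lo hn) (fun ε hε => eps_lo hε)
  obtain ⟨β, hβ, hβ'⟩ := exists_seq (G := GoodN L up) GoodN.mono (c := 1 / 2) (by norm_num)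
    (fun n hn => Pool.Agent.TH387.SH.win_nonneg (a := 1) (by norm_num) hn)
    (Pool.Agent.TH387.SH.win_ev (by norm_num)) (fun n hn => good_up hn) (fun ε hε => eps_up hε)
  refine ⟨α, β, hα, hβ, fun n hn => ⟨(hα' n hn).1, (hβ' n hn).1, ?_⟩, fun n hn m hm w hw => ?_⟩
  · have h1 := (hα' n hn).1
    have h2 := (hβ' n hn).1
    have h3 := Pool.Agent.TH641.NW.window_lt hn
    linarith
  obtain ⟨F₁, h1, h1'⟩ := (hα' n hn).2 m hm w hw
  obtain ⟨F₂, h2, h2'⟩ := (hβ' n hn).2 m hm w hw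
  refine ⟨F₁ * F₂, mul_ne_zero h1 h2, fun P hP d hd => ?_⟩
  rw [map_mul] at hP
  rcases hd with hd | hd
  · exact h1' P (left_ne_zero_of_mul hP) d (by unfold lo; linarith)
  · exact h2' P (right_ne_zero_of_mul hP) d (by unfold up; linarith)

end Pool.Agent.TH434.NW
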